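import Pool.Agent.P.MP_33127d_an.Main

namespace Pool.Agent.Results.MP_33127d_an.ExactOrder

open Pool.Agent.P.MP_33127d_an

theorem result (d : ℕ) (hd : 2 ≤ d) (p a b : ℝ) (hp : 1 < p) (ha : 1 - 1 / p < a) :
    ∃ c C : ℝ, 0 < c ∧ 0 < C ∧ ∀ᶠ m : ℕ in Filter.atTop,
      ENNReal.ofReal (c * order d p a b m) ≤ sigmaClass m p (W d a b) ∧
      sigmaClass m p (W d a b) ≤ ENNReal.ofReal (C * order d p a b m) :=
  main d hd p a b hp ha

end Pool.Agent.Results.MP_33127d_an.ExactOrder
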