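import Pool.Agent.P.MP_33127d_an.Sw.Between

namespace Pool.Agent.Results.MP_33127d_an.Sandwich

open Pool.Agent.P.MP_33127d_an

/-- The class `W` of the problem satisfies the two hypotheses of `result`. -/
theorem W_fits (d : ℕ) (hd : 1 ≤ d) (a b : ℝ) (ha : 0 < a) : ∃ κ : ℝ, 0 < κ ∧
    (∀ f ∈ Small d a b, (fun x => (κ : ℂ) * f x) ∈ W d a b) ∧
    ∀ f ∈ W d a b, (fun x => (κ : ℂ) * f x) ∈ Large d a b :=
  W_between d hd a b ha

theorem result (d : ℕ) (hd : 2 ≤ d) (p a b : ℝ) (hp : 1 < p) (ha : 1 - 1 / p < a)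
    (F : Set (UnitAddTorus (Fin d) → ℂ)) (κ : ℝ) (hκ : 0 < κ)
    (hS : ∀ f ∈ Small d a b, (fun x => (κ : ℂ) * f x) ∈ F)
    (hL : ∀ f ∈ F, (fun x => (κ : ℂ) * f x) ∈ Large d a b) :
    ∃ c C : ℝ, 0 < c ∧ 0 < C ∧ ∀ᶠ m : ℕ in Filter.atTop,
      ENNReal.ofReal (c * order d p a b m) ≤ sigmaClass m p F ∧
      sigmaClass m p F ≤ ENNReal.ofReal (C * order d p a b m) :=
  sandwich d hd p a b hp ha F κ hκ hS hL

end Pool.Agent.Results.MP_33127d_an.Sandwich
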